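import Mathlib

/-! Two edge connected spanning subgraphs of cubic three edge connected multigraphs missing a
fifth of any weight: definitions and the gluing step. -/

namespace Pool.Agent.P.MP_92d394_lc.C

open Finset

variable {V E : Type}

/-- The number of kept edges crossing the cut `q`. -/
def cn (a b : E → V) (F : Finset E) (k : E → Bool) (q : V → Bool) : ℕ :=
  ∑ f ∈ F, if k f = true ∧ q (a f) ≠ q (b f) then 1 else 0

/-- Every cut of `U` is crossed by at least `m` kept edges. -/
def Cn (m : ℕ) (a b : E → V) (F : Finset E) (k : E → Bool) (U : Finset V) : Prop :=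
  ∀ q : V → Bool, ∀ x ∈ U, ∀ y ∈ U, q x ≠ q y → m ≤ cn a b F k q

/-- The weight of the deleted edges. -/
def gn (F : Finset E) (k : E → Bool) (g : E → ℝ) : ℝ := ∑ f ∈ F, if k f = true then 0 else g f

/-- The conclusion. -/
def BL (a b : E → V) (F : Finset E) (U : Finset V) : Prop :=
  ∀ g : E → ℝ, ∃ k, Cn 2 a b F k U ∧ ∑ f ∈ F, g f ≤ 5 * gn F k g

/-- Subcubic three edge connected multigraphs, loops being ignored. -/
structure Ok [DecidableEq V] (a b : E → V) (F : Finset E) (U : Finset V) : Prop where
  ends : ∀ f ∈ F, a f ∈ U ∧ b f ∈ U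
  deg : ∀ v ∈ U, cn a b F (fun _ => true) (fun x => decide (x = v)) ≤ 3
  con : Cn 3 a b F (fun _ => true) U

variable {a b : E → V} {F : Finset E} {U : Finset V}

theorem tf (x : Bool) : x = true ∨ x = false := by cases x <;> simp

theorem cn_mono {k k' : E → Bool} (h : ∀ f ∈ F, k f = true → k' f = true) (q : V → Bool) :
    cn a b F k q ≤ cn a b F k' q := by
  refine sum_le_sum fun f hf => ?_
  have := h f hf
  split_ifs <;> simp_all

theorem cn_not (k : E → Bool) (q : V → Bool) : cn a b F k (fun x => !q x) = cn a b F k q := by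
  refine sum_congr rfl fun f _ => ?_
  rcases tf (q (a f)) with h1 | h1 <;> rcases tf (q (b f)) with h2 | h2 <;> simp [h1, h2]

theorem BL.of_nonneg
    (h : ∀ g : E → ℝ, (∀ f, 0 ≤ g f) → ∃ k, Cn 2 a b F k U ∧ ∑ f ∈ F, g f ≤ 5 * gn F k g) :
    BL a b F U := by
  intro g
  obtain ⟨k, h1, h2⟩ := h (fun f => max (g f) 0) fun f => le_max_right _ _
  refine ⟨fun f => k f || decide (g f < 0), fun q x hx y hy n =>
    (h1 q x hx y hy n).trans (cn_mono (fun f _ e => by simp [e]) q), ?_⟩
  have e : gn F (fun f => k f || decide (g f < 0)) g = gn F k fun f => max (g f) 0 := by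
    refine sum_congr rfl fun f _ => ?_
    by_cases n : g f < 0
    · rcases tf (k f) with h1 | h1 <;> simp [n, n.le, h1]
    · rcases tf (k f) with h1 | h1 <;> simp [n, not_lt.1 n, h1]
  rw [e]
  exact (sum_le_sum fun f _ => le_max_left _ _).trans h2

theorem cn_del [DecidableEq E] (o : Option E) (q : V → Bool) :
    cn a b F (fun _ => true) q ≤ cn a b F (fun f => decide (some f ≠ o)) q + 1 := by
  have : ∑ f ∈ F, (if some f = o then 1 else 0) ≤ 1 := by
    rw [← card_filter]
    refine card_le_one.2 fun x hx y hy => ?_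
    exact Option.some.inj ((mem_filter.1 hx).2.trans (mem_filter.1 hy).2.symm)
  refine le_trans ?_ (Nat.add_le_add_left this _)
  unfold cn
  rw [← sum_add_distrib]
  refine sum_le_sum fun f _ => ?_
  by_cases n : some f = o <;> split_ifs <;> simp_all

/-- The cut `q` on the side `p`, constant on the other side. -/
def ov (p q : V → Bool) (s : Bool) (x : V) : Bool := if p x = true then q x else s

/-- Two edge connectivity after contracting the complement of `p`. -/
def Sol (a b : E → V) (F : Finset E) (k : E → Bool) (U : Finset V) (p : V → Bool) : Prop :=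
  ∀ q s, ∀ x ∈ U, ∀ y ∈ U, ov p q s x ≠ ov p q s y → 2 ≤ cn a b F k (ov p q s)

theorem contr [DecidableEq V] (h : Ok a b F U) {p : V → Bool}
    (hp : cn a b F (fun _ => true) p ≤ 3) {y₁ y₂ : V} (n : y₁ ≠ y₂) (u₂ : y₂ ∈ U) (u₁ : y₁ ∈ U)
    (p₁ : p y₁ = false) (p₂ : p y₂ = false)
    (ih : ∀ (a b : E → V) (U' : Finset V), U'.card < U.card → Ok a b F U' → BL a b F U')
    (g : E → ℝ) : ∃ k, Sol a b F k U p ∧ ∑ f ∈ F, g f ≤ 5 * gn F k g := by
  let φ : V → V := fun x => if p x = true then x else y₁
  have sub : U.image φ ⊆ U.erase y₂ := by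
    intro z hz
    obtain ⟨x, hx, rfl⟩ := mem_image.1 hz
    by_cases e : p x = true
    · simp only [φ, if_pos e]
      exact mem_erase.2 ⟨fun k => by simp_all, hx⟩
    · simp only [φ, if_neg e]
      exact mem_erase.2 ⟨n, u₁⟩
  obtain ⟨k, h1, h2⟩ := ih (fun f => φ (a f)) (fun f => φ (b f)) (U.image φ)
    ((card_le_card sub).trans_lt (card_erase_lt_of_mem u₂))
    ⟨fun f hf => ⟨mem_image_of_mem _ (h.ends f hf).1, mem_image_of_mem _ (h.ends f hf).2⟩,
      fun v hv => by
        obtain ⟨x, hx, rfl⟩ := mem_image.1 hv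
        change cn a b F _ (fun z => decide (φ z = φ x)) ≤ 3
        by_cases e : p x = true
        · have : (fun z => decide (φ z = φ x)) = fun z => decide (z = x) := by
            funext z
            by_cases e' : p z = true
            · simp [φ, e, e']
            · have k1 : y₁ ≠ x := fun k => by simp_all
              have k2 : z ≠ x := fun k => by simp_all
              simp [φ, e, e', k1, k2]
          rw [this]
          exact h.deg x hx
        · have : (fun z => decide (φ z = φ x)) = fun z => !p z := by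
            funext z
            by_cases e' : p z = true
            · have k1 : z ≠ y₁ := fun k => by simp_all
              simp [φ, e, e', k1]
            · simp [φ, e, e']
          rw [this, cn_not]
          exact hp,
      fun q x hx y hy m => by
        obtain ⟨x', hx', rfl⟩ := mem_image.1 hx
        obtain ⟨y', hy', rfl⟩ := mem_image.1 hy
        exact h.con (fun z => q (φ z)) x' hx' y' hy' m⟩ g
  refine ⟨k, fun q s x hx y hy m => ?_, h2⟩
  have e : ∀ z, ov p q s (φ z) = ov p q s z := fun z => by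
    by_cases e' : p z = true <;> simp [φ, ov, e', p₁]
  have := h1 (ov p q s) _ (mem_image_of_mem φ hx) _ (mem_image_of_mem φ hy) (by rwa [e, e])
  simpa only [cn, e] using this

/-- The kept edges of the cut `p` are those different from `o`. -/
def Pat [DecidableEq E] (a b : E → V) (F : Finset E) (p : V → Bool) (o : Option E)
    (k : E → Bool) : Prop :=
  ∀ f ∈ F, p (a f) ≠ p (b f) → k f = decide (some f ≠ o)

theorem pat [DecidableEq E] {p : V → Bool} {k : E → Bool} (hp : cn a b F (fun _ => true) p ≤ 3)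
    (hk : 2 ≤ cn a b F k p) :
    ∃ o : Option E, (∀ c, o = some c → c ∈ F ∧ p (a c) ≠ p (b c)) ∧ Pat a b F p o k := by
  by_cases h : ∃ c ∈ F, p (a c) ≠ p (b c) ∧ k c = false
  · obtain ⟨c, c1, c2, c3⟩ := h
    refine ⟨some c, fun d e => Option.some.inj e ▸ ⟨c1, c2⟩, fun f f1 f2 => ?_⟩
    by_cases e : f = c
    · simp [e, c3]
    · by_contra hn
      have f3 : k f = false := by simpa [e] using hn
      have : cn a b F k p + ∑ z ∈ F, (if z ∈ ({f, c} : Finset E) then 1 else 0) ≤
          cn a b F (fun _ => true) p := by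
        unfold cn
        rw [← sum_add_distrib]
        refine sum_le_sum fun z _ => ?_
        by_cases m : z ∈ ({f, c} : Finset E)
        · rw [if_pos m]
          rcases mem_insert.1 m with rfl | m
          · simp [f2, f3]
          · rw [mem_singleton.1 m]
            simp [c2, c3]
        · rw [if_neg m]
          split_ifs <;> simp_all
      rw [← card_filter, filter_mem_eq_inter, inter_eq_right.2 (by
        intro z hz
        rcases mem_insert.1 hz with rfl | m
        · exact f1
        · exact mem_singleton.1 m ▸ c1), card_pair e] at this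
      omega
  · refine ⟨none, fun c e => by simp at e, fun f f1 f2 => ?_⟩
    by_contra hn
    exact h ⟨f, f1, f2, by simpa using hn⟩

theorem pat_sum [DecidableEq E] {p : V → Bool} {k : E → Bool} {o : Option E}
    (h1 : ∀ c, o = some c → c ∈ F ∧ p (a c) ≠ p (b c)) (h2 : Pat a b F p o k) (g : E → ℝ) :
    gn F k (fun f => if p (a f) ≠ p (b f) then g f else 0) = o.elim 0 g := by
  have : gn F k (fun f => if p (a f) ≠ p (b f) then g f else 0) =
      ∑ f ∈ F, if some f = o then g f else 0 := by
    refine sum_congr rfl fun f hf => ?_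
    by_cases e : p (a f) ≠ p (b f)
    · rw [h2 f hf e]
      by_cases m : some f = o <;> simp [e, m]
    · have : some f ≠ o := fun m => e (h1 f m.symm).2
      simp [e, this]
  rw [this]
  cases o with
  | none => simp
  | some c => simp [(h1 c rfl).1]

theorem gn_add (k : E → Bool) (g g' : E → ℝ) :
    gn F k (fun f => g f + g' f) = gn F k g + gn F k g' := by
  unfold gn
  rw [← sum_add_distrib]
  refine sum_congr rfl fun f _ => ?_
  split_ifs <;> simp

theorem glue_con [DecidableEq E] {p : V → Bool} {k₁ k₂ : E → Bool} {o : Option E}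
    (hp : cn a b F (fun _ => true) p ≤ 3) (ends : ∀ f ∈ F, a f ∈ U ∧ b f ∈ U)
    (s₁ : Sol a b F k₁ U fun x => !p x) (s₂ : Sol a b F k₂ U p) (t₁ : Pat a b F p o k₁)
    (t₂ : Pat a b F p o k₂) :
    Cn 2 a b F (fun f => if p (a f) = true ∧ p (b f) = true then k₂ f else k₁ f) U := by
  intro q x hx y hy n
  have same : ∀ f ∈ F, p (a f) ≠ p (b f) → k₁ f = k₂ f := fun f f1 f2 =>
    (t₁ f f1 f2).trans (t₂ f f1 f2).symm
  by_cases c₁ : ∃ s, ∀ z ∈ U, p z = true → q z = s
  · obtain ⟨s, hs⟩ := c₁
    have e : ∀ z ∈ U, ov (fun x => !p x) q s z = q z := fun z hz => by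
      have := hs z hz
      cases h : p z <;> simp_all [ov]
    refine (s₁ q s x hx y hy (by rwa [e x hx, e y hy])).trans (sum_le_sum fun f hf => ?_)
    rw [e _ (ends f hf).1, e _ (ends f hf).2]
    have h1 := hs _ (ends f hf).1
    have h2 := hs _ (ends f hf).2
    cases h : p (a f) <;> cases h' : p (b f) <;> simp_all
  by_cases c₂ : ∃ s, ∀ z ∈ U, p z = false → q z = s
  · obtain ⟨s, hs⟩ := c₂
    have e : ∀ z ∈ U, ov p q s z = q z := fun z hz => by
      have := hs z hz
      cases h : p z <;> simp_all [ov]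
    refine (s₂ q s x hx y hy (by rwa [e x hx, e y hy])).trans (sum_le_sum fun f hf => ?_)
    rw [e _ (ends f hf).1, e _ (ends f hf).2]
    have h1 := hs _ (ends f hf).1
    have h2 := hs _ (ends f hf).2
    have h3 := same f hf
    cases h : p (a f) <;> cases h' : p (b f) <;> simp_all
  push Not at c₁ c₂
  obtain ⟨x₁, x1, x2, x3⟩ := c₁ true
  obtain ⟨x₂, x4, x5, x6⟩ := c₁ false
  obtain ⟨y₁, y1, y2, y3⟩ := c₂ true
  obtain ⟨y₂, y4, y5, y6⟩ := c₂ false
  have a₁ := fun s => s₂ q s x₁ x1 x₂ x4 (by simp_all [ov])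
  have a₂ := fun s => s₁ q s y₁ y1 y₂ y4 (by simp_all [ov])
  let A := cn a b F (fun f => k₂ f && (p (a f) && p (b f))) q
  let B := cn a b F (fun f => k₁ f && (!p (a f) && !p (b f))) q
  have b₁ : cn a b F k₂ (ov p q true) + cn a b F k₂ (ov p q false) ≤
      A + A + cn a b F (fun _ => true) p := by
    simp only [A, cn, ← sum_add_distrib]
    refine sum_le_sum fun f _ => ?_
    simp only [ov]
    rcases tf (p (a f)) with h1 | h1 <;>
      rcases tf (p (b f)) with h2 | h2 <;>
      rcases tf (q (a f)) with h3 | h3 <;>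
      rcases tf (q (b f)) with h4 | h4 <;>
      rcases tf (k₂ f) with h5 | h5 <;>
      simp [h1, h2, h3, h4, h5]
  have b₂ : cn a b F k₁ (ov (fun x => !p x) q true) + cn a b F k₁ (ov (fun x => !p x) q false) ≤
      B + B + cn a b F (fun _ => true) p := by
    simp only [B, cn, ← sum_add_distrib]
    refine sum_le_sum fun f _ => ?_
    simp only [ov]
    rcases tf (p (a f)) with h1 | h1 <;>
      rcases tf (p (b f)) with h2 | h2 <;>
      rcases tf (q (a f)) with h3 | h3 <;>
      rcases tf (q (b f)) with h4 | h4 <;>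
      rcases tf (k₁ f) with h5 | h5 <;>
      simp [h1, h2, h3, h4, h5]
  have b₃ : A + B ≤
      cn a b F (fun f => if p (a f) = true ∧ p (b f) = true then k₂ f else k₁ f) q := by
    simp only [A, B, cn, ← sum_add_distrib]
    refine sum_le_sum fun f _ => ?_
    rcases tf (p (a f)) with h1 | h1 <;>
      rcases tf (p (b f)) with h2 | h2 <;>
      rcases tf (q (a f)) with h3 | h3 <;>
      rcases tf (q (b f)) with h4 | h4 <;>
      rcases tf (k₁ f) with h5 | h5 <;>
      rcases tf (k₂ f) with h6 | h6 <;>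
      simp [h1, h2, h3, h4, h5, h6]
  have := a₁ true
  have := a₁ false
  have := a₂ true
  have := a₂ false
  omega

theorem glue [Fintype E] [DecidableEq E] [DecidableEq V] (h : Ok a b F U) {p : V → Bool}
    (hp : cn a b F (fun _ => true) p ≤ 3) {x y : V} (hx : x ∈ U) (hy : y ∈ U) (px : p x = true)
    (py : p y = false)
    (s₁ : ∀ g : E → ℝ, ∃ k, Sol a b F k U (fun x => !p x) ∧ ∑ f ∈ F, g f ≤ 5 * gn F k g)
    (s₂ : ∀ g : E → ℝ, ∃ k, Sol a b F k U p ∧ ∑ f ∈ F, g f ≤ 5 * gn F k g) : BL a b F U := by
  classical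
  intro g
  let gA : E → ℝ := fun f => if p (a f) = true ∧ p (b f) = true then g f else 0
  let gB : E → ℝ := fun f => if p (a f) = false ∧ p (b f) = false then g f else 0
  have ex : ∀ o : Option E, ∃ K, (Sol a b F K U p ∧ Pat a b F p o K) ∧
      ∀ k, Sol a b F k U p → Pat a b F p o k → gn F k gA ≤ gn F K gA := by
    intro o
    obtain ⟨K, h1, h2⟩ := exists_max_image
      (univ.filter fun k : E → Bool => Sol a b F k U p ∧ Pat a b F p o k) (fun k => gn F k gA)
      ⟨fun f => decide (some f ≠ o), mem_filter.2 ⟨mem_univ _, fun q s x hx y hy n => by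
        have k1 := h.con _ x hx y hy n
        have k2 := cn_del (a := a) (b := b) (F := F) o (ov p q s)
        omega, fun _ _ _ => rfl⟩⟩
    exact ⟨K, (mem_filter.1 h1).2, fun k k1 k2 => h2 k (mem_filter.2 ⟨mem_univ _, k1, k2⟩)⟩
  choose K hK hmax using ex
  let m : Option E → ℝ := fun o => gn F (K o) gA
  obtain ⟨k₂, a1, a2⟩ := s₂ fun f =>
    gA f + if p (a f) ≠ p (b f) then m none - m (some f) else 0
  obtain ⟨k₁, b1, b2⟩ := s₁ fun f =>
    gB f + if p (a f) ≠ p (b f) then g f + m (some f) - m none else 0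
  have e₂ : ov p (fun _ => true) false = p := by
    funext z
    cases e : p z <;> simp [ov, e]
  have e₁ : ov (fun x => !p x) (fun _ => false) true = p := by
    funext z
    cases e : p z <;> simp [ov, e]
  have c₂ := a1 (fun _ => true) false x hx y hy (by simp [e₂, px, py])
  have c₁ := b1 (fun _ => false) true x hx y hy (by simp [e₁, px, py])
  rw [e₂] at c₂
  rw [e₁] at c₁
  obtain ⟨o₂, d1, d2⟩ := pat hp c₂
  obtain ⟨o, d3, d4⟩ := pat hp c₁
  rw [gn_add, pat_sum d1 d2] at a2
  rw [gn_add, pat_sum d3 d4] at b2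
  have a3 : gn F k₂ gA + o₂.elim 0 (fun f => m none - m (some f)) ≤ m none := by
    have : gn F k₂ gA ≤ m o₂ := hmax o₂ k₂ a1 d2
    cases o₂ <;> simp only [Option.elim] <;> linarith
  refine ⟨_, glue_con hp h.ends b1 (hK o).1 d4 (hK o).2, ?_⟩
  have b3 : gn F (fun f => if p (a f) = true ∧ p (b f) = true then K o f else k₁ f) g =
      m o + gn F k₁ gB + o.elim 0 g := by
    rw [← pat_sum d3 d4 g]
    simp only [m, gn, gA, gB, ← sum_add_distrib]
    refine sum_congr rfl fun f _ => ?_
    rcases tf (p (a f)) with h1 | h1 <;>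
      rcases tf (p (b f)) with h2 | h2 <;>
      rcases tf (k₁ f) with h3 | h3 <;>
      rcases tf (K o f) with h4 | h4 <;>
      simp [h1, h2, h3, h4]
  have b4 : o.elim 0 (fun f => g f + m (some f) - m none) = m o + o.elim 0 g - m none := by
    cases o <;> simp only [Option.elim] <;> ring
  have b5 : ∑ f ∈ F, g f =
      ∑ f ∈ F, (gA f + if p (a f) ≠ p (b f) then m none - m (some f) else 0) +
      ∑ f ∈ F, (gB f + if p (a f) ≠ p (b f) then g f + m (some f) - m none else 0) := by
    rw [← sum_add_distrib]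
    refine sum_congr rfl fun f _ => ?_
    simp only [gA, gB]
    cases p (a f) <;> cases p (b f) <;> simp
  rw [b3, b5]
  rw [b4] at b2
  linarith

end Pool.Agent.P.MP_92d394_lc.C
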