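import Pool.Agent.P.MP_92d394_lc.C.B1

/-! The step deleting a heaviest edge and suppressing its ends. -/

namespace Pool.Agent.P.MP_92d394_lc.C

open Finset

variable {V E : Type} {a b : E → V} {F : Finset E} {U : Finset V}

/-- The edge `f` joins `x` and `y`. -/
def Jn (a b : E → V) (f : E) (x y : V) : Prop := (a f = x ∧ b f = y) ∨ (a f = y ∧ b f = x)

theorem Jn.ne {f : E} {x y : V} (h : Jn a b f x y) (q : V → Bool) :
    (q (a f) ≠ q (b f)) = (q x ≠ q y) := by
  rcases h with ⟨rfl, rfl⟩ | ⟨rfl, rfl⟩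
  · rfl
  · exact propext ne_comm

/-- An indicator. -/
def id2 (k x y : Bool) : ℕ := if k = true ∧ x ≠ y then 1 else 0

theorem cn_insert [DecidableEq E] {f : E} {x y : V} (h : Jn a b f x y) (n : f ∉ F)
    (k : E → Bool) (q : V → Bool) :
    cn a b (insert f F) k q = id2 (k f) (q x) (q y) + cn a b F k q := by
  unfold cn id2
  rw [sum_insert n]
  simp only [h.ne q]

theorem step [DecidableEq E] [DecidableEq V] {R : Finset E} {e e₁ e₂ e₃ e₄ : E}
    {u v α β γ δ : V} (n₄ : e₄ ∉ R) (n₃ : e₃ ∉ insert e₄ R) (n₂ : e₂ ∉ insert e₃ (insert e₄ R))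
    (n₁ : e₁ ∉ insert e₂ (insert e₃ (insert e₄ R)))
    (n₀ : e ∉ insert e₁ (insert e₂ (insert e₃ (insert e₄ R))))
    (j₀ : Jn a b e u v) (j₁ : Jn a b e₁ u α) (j₂ : Jn a b e₂ u β) (j₃ : Jn a b e₃ v γ)
    (j₄ : Jn a b e₄ v δ) (uv : u ≠ v) (hu : u ∈ U) (hv : v ∈ U)
    (hα : α ∈ (U.erase u).erase v) (hβ : β ∈ (U.erase u).erase v)
    (hγ : γ ∈ (U.erase u).erase v) (hδ : δ ∈ (U.erase u).erase v)
    (hR : ∀ f ∈ R, a f ∈ (U.erase u).erase v ∧ b f ∈ (U.erase u).erase v)
    (h : Ok a b (insert e (insert e₁ (insert e₂ (insert e₃ (insert e₄ R))))) U)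
    (four : ∀ q : V → Bool, ∀ x₁ ∈ U, ∀ x₂ ∈ U, ∀ y₁ ∈ U, ∀ y₂ ∈ U, x₁ ≠ x₂ → y₁ ≠ y₂ →
      q x₁ = true → q x₂ = true → q y₁ = false → q y₂ = false →
      4 ≤ cn a b (insert e (insert e₁ (insert e₂ (insert e₃ (insert e₄ R))))) (fun _ => true) q)
    (ih : ∀ a b : E → V, Ok a b (insert e₁ (insert e₃ R)) ((U.erase u).erase v) →
      BL a b (insert e₁ (insert e₃ R)) ((U.erase u).erase v))
    {g : E → ℝ} (g₀ : 0 ≤ g e) (g₁ : g e₁ ≤ g e) (g₃ : g e₃ ≤ g e) :
    ∃ k, Cn 2 a b (insert e (insert e₁ (insert e₂ (insert e₃ (insert e₄ R))))) k U ∧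
      ∑ f ∈ insert e (insert e₁ (insert e₂ (insert e₃ (insert e₄ R)))), g f ≤
        5 * gn (insert e (insert e₁ (insert e₂ (insert e₃ (insert e₄ R))))) k g := by
  have A : ∀ k q, cn a b (insert e (insert e₁ (insert e₂ (insert e₃ (insert e₄ R))))) k q =
      id2 (k e) (q u) (q v) + (id2 (k e₁) (q u) (q α) + (id2 (k e₂) (q u) (q β) +
        (id2 (k e₃) (q v) (q γ) + (id2 (k e₄) (q v) (q δ) + cn a b R k q)))) := fun k q => by
    rw [cn_insert j₀ n₀, cn_insert j₁ n₁, cn_insert j₂ n₂, cn_insert j₃ n₃, cn_insert j₄ n₄]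
  have sumF : ∀ t : E → ℝ,
      ∑ f ∈ insert e (insert e₁ (insert e₂ (insert e₃ (insert e₄ R)))), t f =
        t e + (t e₁ + (t e₂ + (t e₃ + (t e₄ + ∑ f ∈ R, t f)))) := fun t => by
    rw [sum_insert n₀, sum_insert n₁, sum_insert n₂, sum_insert n₃, sum_insert n₄]
  simp only [mem_insert, not_or] at n₀ n₁ n₂ n₃
  have m₃ : e₃ ∉ R := n₃.2
  have m₁ : e₁ ∉ insert e₃ R := by simp [n₁]
  have r : ∀ f ∈ R, f ≠ e ∧ f ≠ e₁ ∧ f ≠ e₂ ∧ f ≠ e₃ ∧ f ≠ e₄ := fun f hf =>
    ⟨fun k => n₀.2.2.2.2 (k ▸ hf), fun k => n₁.2.2.2 (k ▸ hf), fun k => n₂.2.2 (k ▸ hf),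
      fun k => n₃.2 (k ▸ hf), fun k => n₄ (k ▸ hf)⟩
  let a' : E → V := fun f => if f = e₁ then α else if f = e₃ then γ else a f
  let b' : E → V := fun f => if f = e₁ then β else if f = e₃ then δ else b f
  have n31 : e₃ ≠ e₁ := fun k => n₁.2.1 k.symm
  have B : ∀ k q, cn a' b' (insert e₁ (insert e₃ R)) k q =
      id2 (k e₁) (q α) (q β) + (id2 (k e₃) (q γ) (q δ) + cn a b R k q) := fun k q => by
    rw [cn_insert (x := α) (y := β) (Or.inl ⟨by simp [a'], by simp [b']⟩) m₁,
      cn_insert (x := γ) (y := δ) (Or.inl ⟨by simp [a', n31], by simp [b', n31]⟩) m₃]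
    congr 2
    refine sum_congr rfl fun f hf => ?_
    simp [a', b', r f hf]
  have off : ∀ z ∈ (U.erase u).erase v, z ≠ v ∧ z ≠ u ∧ z ∈ U := fun z hz => by simpa using hz
  have C : ∀ k k' : E → Bool, ∀ q q' : V → Bool, (∀ f ∈ R, k f = k' f) →
      (∀ z ∈ (U.erase u).erase v, q z = q' z) → cn a b R k q = cn a b R k' q' :=
    fun k k' q q' h1 h2 => sum_congr rfl fun f hf => by
      rw [h1 f hf, h2 _ (hR f hf).1, h2 _ (hR f hf).2]
  have ok : Ok a' b' (insert e₁ (insert e₃ R)) ((U.erase u).erase v) := by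
    refine ⟨fun f hf => ?_, fun x hx => ?_, fun q x hx y hy n => ?_⟩
    · rcases mem_insert.1 hf with rfl | hf
      · simpa only [a', b', if_pos] using ⟨hα, hβ⟩
      rcases mem_insert.1 hf with rfl | hf
      · simpa only [a', b', if_pos, if_neg n31] using ⟨hγ, hδ⟩
      · simpa only [a', b', if_neg (r f hf).2.1, if_neg (r f hf).2.2.2.1] using hR f hf
    · refine le_trans ?_ (h.deg x (off x hx).2.2)
      rw [A, B]
      generalize decide (u = x) = s, decide (v = x) = t, decide (α = x) = c₁,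
        decide (β = x) = c₂, decide (γ = x) = c₃, decide (δ = x) = c₄
      cases s <;> cases t <;> cases c₁ <;> cases c₂ <;> cases c₃ <;> cases c₄ <;>
        simp [id2] <;> omega
    · let q' : Bool → Bool → V → Bool := fun s t z => if z = u then s else if z = v then t else q z
      have e1 : ∀ s t, ∀ z ∈ (U.erase u).erase v, q' s t z = q z := fun s t z hz => by
        simp [q', off z hz]
      have e2 : ∀ s t, q' s t u = s := fun s t => by simp [q']
      have e3 : ∀ s t, q' s t v = t := fun s t => by simp [q', uv.symm]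
      have A' : ∀ s t, cn a b (insert e (insert e₁ (insert e₂ (insert e₃ (insert e₄ R)))))
          (fun _ => true) (q' s t) = id2 true s t + (id2 true s (q α) + (id2 true s (q β) +
            (id2 true t (q γ) + (id2 true t (q δ) + cn a b R (fun _ => true) q)))) := fun s t => by
        rw [A, e2, e3, e1 s t α hα, e1 s t β hβ, e1 s t γ hγ, e1 s t δ hδ,
          C _ _ _ _ (fun _ _ => rfl) (e1 s t)]
      have c : ∀ s t, 3 ≤ cn a b (insert e (insert e₁ (insert e₂ (insert e₃ (insert e₄ R)))))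
          (fun _ => true) (q' s t) := fun s t =>
        h.con _ x (off x hx).2.2 y (off y hy).2.2 (by rwa [e1 s t x hx, e1 s t y hy])
      have c1 := c true true
      have c2 := c false false
      have c3 := four (q' true false) u hu α (off α hα).2.2 v hv γ (off γ hγ).2.2
        (off α hα).2.1.symm (off γ hγ).1.symm (e2 ..)
      have c4 := four (q' false true) v hv γ (off γ hγ).2.2 u hu α (off α hα).2.2
        (off γ hγ).1.symm (off α hα).2.1.symm (e3 ..)
      rw [e1 _ _ α hα, e1 _ _ γ hγ, A'] at c3 c4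
      rw [e3] at c3
      rw [e2] at c4
      rw [A'] at c1 c2
      rw [B]
      generalize q α = c₁, q β = c₂, q γ = c₃, q δ = c₄, cn a b R (fun _ => true) q = N at *
      cases c₁ <;> cases c₂ <;> cases c₃ <;> cases c₄ <;> simp [id2] at c1 c2 c3 c4 ⊢ <;> omega
  obtain ⟨k', k1, k2⟩ := ih a' b' ok
    fun f => if f = e₁ then g e₂ - g e else if f = e₃ then g e₄ - g e else g f
  let k : E → Bool := fun f => if f = e then !(k' e₁ && k' e₃) else if f = e₁ then true else
    if f = e₂ then k' e₁ else if f = e₃ then true else if f = e₄ then k' e₃ else k' f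
  have l₀ : k e = !(k' e₁ && k' e₃) := by simp [k]
  have l₁ : k e₁ = true := by simp [k, Ne.symm n₀.1]
  have l₂ : k e₂ = k' e₁ := by simp [k, Ne.symm n₀.2.1, Ne.symm n₁.1]
  have l₃ : k e₃ = true := by simp [k, Ne.symm n₀.2.2.1, Ne.symm n₂.1]
  have l₄ : k e₄ = k' e₃ := by
    simp [k, Ne.symm n₀.2.2.2.1, Ne.symm n₁.2.2.1, Ne.symm n₂.2.1, Ne.symm n₃.1]
  have l₅ : ∀ f ∈ R, k f = k' f := fun f hf => by simp [k, r f hf]
  refine ⟨k, fun q x hx y hy n => ?_, ?_⟩
  · rw [A, l₀, l₁, l₂, l₃, l₄, C _ _ _ _ l₅ fun _ _ => rfl]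
    by_cases c : ∃ z ∈ (U.erase u).erase v, q z ≠ q α
    · obtain ⟨z, z1, z2⟩ := c
      have := k1 q z z1 α hα z2
      rw [B] at this
      clear z2 n
      generalize q α = c₁, q β = c₂, q γ = c₃, q δ = c₄, q u = s, q v = t, k' e₁ = i, k' e₃ = j,
        cn a b R k' q = N at *
      cases c₁ <;> cases c₂ <;> cases c₃ <;> cases c₄ <;> cases s <;> cases t <;> cases i <;>
        cases j <;> simp [id2] at this ⊢ <;> omega
    · push Not at c
      have d : ¬ (q u = q α ∧ q v = q α) := by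
        rintro ⟨d1, d2⟩
        have : ∀ z ∈ U, q z = q α := fun z hz => by
          by_cases z1 : z = u
          · rw [z1, d1]
          by_cases z2 : z = v
          · rw [z2, d2]
          exact c z (by simp [z1, z2, hz])
        exact n ((this x hx).trans (this y hy).symm)
      rw [c β hβ, c γ hγ, c δ hδ]
      clear c n
      generalize q α = c₁, q u = s, q v = t, k' e₁ = i, k' e₃ = j, cn a b R k' q = N at *
      cases c₁ <;> cases s <;> cases t <;> cases i <;> cases j <;> simp [id2] at d ⊢ <;> omega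
  · have e1 : ∑ f ∈ R, (if f = e₁ then g e₂ - g e else if f = e₃ then g e₄ - g e else g f) =
        ∑ f ∈ R, g f := sum_congr rfl fun f hf => by simp [r f hf]
    have e2 : ∑ f ∈ R, (if k' f = true then 0 else
        if f = e₁ then g e₂ - g e else if f = e₃ then g e₄ - g e else g f) =
        ∑ f ∈ R, if k f = true then 0 else g f := sum_congr rfl fun f hf => by
      simp [r f hf, l₅ f hf]
    unfold gn at k2 ⊢
    rw [sum_insert m₁, sum_insert m₃, sum_insert m₁, sum_insert m₃, e1, e2] at k2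
    rw [sumF, sumF, l₀, l₁, l₂, l₃, l₄]
    rcases tf (k' e₁) with i | i <;> rcases tf (k' e₃) with j | j <;>
      simp [i, j, n31] at k2 ⊢ <;> linarith

end Pool.Agent.P.MP_92d394_lc.C
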