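import Pool.Agent.P.MP_92d394_lc.C.B2

/-! The induction. -/

namespace Pool.Agent.P.MP_92d394_lc.C

open Finset

variable {V E : Type} {a b : E → V} {F : Finset E} {U : Finset V}

theorem Jn.symm {f : E} {x y : V} (h : Jn a b f x y) : Jn a b f y x := Or.symm h

/-- The two other edges at an end of `e`. -/
theorem others [DecidableEq E] [DecidableEq V] (h : Ok a b F U) (nl : ∀ f ∈ F, a f ≠ b f)
    (big : 5 < F.card) {e : E} (he : e ∈ F) {u v : V} (j : Jn a b e u v) :
    ∃ e₁ e₂ α β, e₁ ≠ e₂ ∧ e₁ ≠ e ∧ e₂ ≠ e ∧ e₁ ∈ F ∧ e₂ ∈ F ∧ Jn a b e₁ u α ∧ Jn a b e₂ u β ∧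
      α ∈ (U.erase u).erase v ∧ β ∈ (U.erase u).erase v ∧
      ∀ f ∈ F, f ≠ e → f ≠ e₁ → f ≠ e₂ → a f ≠ u ∧ b f ≠ u := by
  have uv : u ≠ v := by
    rcases j with ⟨rfl, rfl⟩ | ⟨rfl, rfl⟩
    exacts [nl e he, (nl e he).symm]
  have hu : u ∈ U ∧ v ∈ U := by
    rcases j with ⟨rfl, rfl⟩ | ⟨rfl, rfl⟩
    exacts [h.ends e he, (h.ends e he).symm]
  have cd : (F.filter fun f => a f = u ∨ b f = u).card = 3 := by
    have e1 : cn a b F (fun _ => true) (fun x => decide (x = u)) =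
        (F.filter fun f => a f = u ∨ b f = u).card := by
      rw [card_filter]
      refine sum_congr rfl fun f hf => ?_
      have := nl f hf
      by_cases p : a f = u <;> by_cases q : b f = u <;> simp_all
    have e2 := h.deg u hu.1
    have e3 := h.con (fun x => decide (x = u)) u hu.1 v hu.2 (by simp [uv.symm])
    omega
  have me : e ∈ F.filter fun f => a f = u ∨ b f = u :=
    mem_filter.2 ⟨he, j.imp (fun k => k.1) fun k => k.2⟩
  obtain ⟨e₁, e₂, n, hs⟩ := card_eq_two.1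
    (show ((F.filter fun f => a f = u ∨ b f = u).erase e).card = 2 by
      rw [card_erase_of_mem me, cd])
  obtain ⟨f₀, f1, f2⟩ : ∃ f ∈ F, f ∉ F.filter fun f => a f = u ∨ b f = u :=
    exists_mem_notMem_of_card_lt_card (by omega)
  obtain ⟨z, z1, z2, z3⟩ : ∃ z ∈ U, z ≠ u ∧ z ≠ v := by
    have k1 := nl f₀ f1
    have k2 := h.ends f₀ f1
    simp only [mem_filter, f1, true_and, not_or] at f2
    by_cases k : a f₀ = v
    · exact ⟨b f₀, k2.2, f2.2, fun m => k1 (k.trans m.symm)⟩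
    · exact ⟨a f₀, k2.1, f2.1, k⟩
  have par : ∀ f ∈ F, f ≠ e → ¬ Jn a b f u v := by
    intro f hf n j'
    have e1 := h.deg u hu.1
    have e2 := h.deg v hu.2
    have e3 := h.con (fun x => decide (x = u) || decide (x = v)) u hu.1 z z1 (by simp [z2, z3])
    have e4 : cn a b F (fun _ => true) (fun x => decide (x = u) || decide (x = v)) +
        ∑ y ∈ F, 2 * (if y ∈ ({f, e} : Finset E) then 1 else 0) ≤
        cn a b F (fun _ => true) (fun x => decide (x = u)) +
          cn a b F (fun _ => true) (fun x => decide (x = v)) := by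
      unfold cn
      rw [← sum_add_distrib, ← sum_add_distrib]
      refine sum_le_sum fun y _ => ?_
      by_cases m : y ∈ ({f, e} : Finset E)
      · have j'' : Jn a b y u v := by
          rcases mem_insert.1 m with rfl | m
          · exact j'
          · exact mem_singleton.1 m ▸ j
        rw [if_pos m]
        rcases j'' with ⟨k1, k2⟩ | ⟨k1, k2⟩ <;> simp [k1, k2, uv, uv.symm]
      · rw [if_neg m]
        by_cases k1 : a y = u <;> by_cases k2 : a y = v <;> by_cases k3 : b y = u <;>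
          by_cases k4 : b y = v <;> simp_all
    rw [← mul_sum, ← card_filter, filter_mem_eq_inter, inter_eq_right.2 (by
      intro y hy
      rcases mem_insert.1 hy with rfl | m
      · exact hf
      · exact mem_singleton.1 m ▸ he), card_pair n] at e4
    omega
  have oth : ∀ f ∈ ({e₁, e₂} : Finset E), f ≠ e ∧ f ∈ F ∧
      ∃ α, Jn a b f u α ∧ α ∈ (U.erase u).erase v := by
    intro f hf
    rw [← hs, mem_erase, mem_filter] at hf
    obtain ⟨k1, k2, k3⟩ := hf
    have k4 := nl f k2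
    have k5 := h.ends f k2
    refine ⟨k1, k2, ?_⟩
    rcases k3 with k3 | k3
    · have j' : Jn a b f u (b f) := Or.inl ⟨k3, rfl⟩
      exact ⟨_, j', mem_erase.2 ⟨fun k => par f k2 k1 (k ▸ j'),
        mem_erase.2 ⟨fun k => k4 (k3.trans k.symm), k5.2⟩⟩⟩
    · have j' : Jn a b f u (a f) := Or.inr ⟨rfl, k3⟩
      exact ⟨_, j', mem_erase.2 ⟨fun k => par f k2 k1 (k ▸ j'),
        mem_erase.2 ⟨fun k => k4 (k.trans k3.symm), k5.1⟩⟩⟩
  obtain ⟨p1, p2, α, p3, p4⟩ := oth e₁ (by simp)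
  obtain ⟨q1, q2, β, q3, q4⟩ := oth e₂ (by simp)
  refine ⟨e₁, e₂, α, β, n, p1, q1, p2, q2, p3, q3, p4, q4, fun f hf n0 n1 n2 => ?_⟩
  by_contra c
  have : f ∈ ({e₁, e₂} : Finset E) := by
    rw [← hs]
    exact mem_erase.2 ⟨n0, mem_filter.2 ⟨hf, by tauto⟩⟩
  simp [n1, n2] at this

theorem bl [Fintype E] [DecidableEq E] [DecidableEq V] (n : ℕ) :
    ∀ (a b : E → V) (F : Finset E) (U : Finset V), F.card + U.card = n → Ok a b F U →
      BL a b F U := by
  induction n using Nat.strong_induction_on with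
  | _ n ih =>
  intro a b F U hn h
  by_cases cut : ∃ p : V → Bool, ∃ x₁ ∈ U, ∃ x₂ ∈ U, ∃ y₁ ∈ U, ∃ y₂ ∈ U, x₁ ≠ x₂ ∧ y₁ ≠ y₂ ∧
      p x₁ = true ∧ p x₂ = true ∧ p y₁ = false ∧ p y₂ = false ∧ cn a b F (fun _ => true) p ≤ 3
  · obtain ⟨p, x₁, x1, x₂, x2, y₁, y1, y₂, y2, nx, ny, p1, p2, p3, p4, hp⟩ := cut
    have ih' : ∀ (a b : E → V) (U' : Finset V), U'.card < U.card → Ok a b F U' → BL a b F U' :=
      fun a b U' l o => ih _ (by omega) a b F U' rfl o
    exact glue h hp x1 y1 p1 p3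
      (contr h (by rwa [cn_not]) nx x2 x1 (by simp [p1]) (by simp [p2]) ih')
      (contr h hp ny y2 y1 p3 p4 ih')
  refine BL.of_nonneg fun g g0 => ?_
  by_cases loop : ∃ e ∈ F, a e = b e
  · obtain ⟨e, he, l⟩ := loop
    have e1 : ∀ k q, cn a b F k q = cn a b (F.erase e) k q := fun k q => by
      unfold cn
      rw [← add_sum_erase F _ he]
      simp [l]
    have := card_erase_lt_of_mem he
    obtain ⟨k, k1, k2⟩ := ih _ (by omega) a b (F.erase e) U rfl
      ⟨fun f hf => h.ends f (mem_of_mem_erase hf), fun v hv => e1 _ _ ▸ h.deg v hv,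
        fun q x hx y hy m => e1 _ _ ▸ h.con q x hx y hy m⟩ g
    refine ⟨fun f => k f && decide (f ≠ e), fun q x hx y hy m => ?_, ?_⟩
    · rw [e1]
      exact (k1 q x hx y hy m).trans (cn_mono (fun f hf m => by
        simp [m, (mem_erase.1 hf).1]) q)
    · have : gn (F.erase e) (fun f => k f && decide (f ≠ e)) g = gn (F.erase e) k g :=
        sum_congr rfl fun f hf => by simp [(mem_erase.1 hf).1]
      unfold gn at *
      rw [← add_sum_erase F _ he, ← add_sum_erase F _ he, this]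
      have := g0 e
      simp only [ne_eq, not_true, decide_false, Bool.and_false, Bool.false_eq_true, if_false]
      linarith
  push Not at loop
  rcases F.eq_empty_or_nonempty with rfl | ne
  · exact ⟨fun _ => true, fun q x hx y hy m => le_trans (by norm_num) (h.con q x hx y hy m),
      by simp [gn]⟩
  obtain ⟨e, he, mx⟩ := exists_max_image F g ne
  by_cases big : F.card ≤ 5
  · refine ⟨fun f => decide (some f ≠ some e), fun q x hx y hy m => ?_, ?_⟩
    · have k1 := h.con q x hx y hy m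
      have k2 := cn_del (a := a) (b := b) (F := F) (some e) q
      omega
    · have k1 : gn F (fun f => decide (some f ≠ some e)) g = g e := by simp [gn, he]
      have k2 := sum_le_card_nsmul F g (g e) mx
      have k3 : (F.card : ℝ) ≤ 5 := by exact_mod_cast big
      rw [nsmul_eq_mul] at k2
      rw [k1]
      exact k2.trans (mul_le_mul_of_nonneg_right k3 (g0 e))
  push Not at big
  have j₀ : Jn a b e (a e) (b e) := Or.inl ⟨rfl, rfl⟩
  have uv := loop e he
  obtain ⟨hu, hv⟩ := h.ends e he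
  generalize a e = u, b e = v at j₀ uv hu hv
  obtain ⟨e₁, e₂, α, β, n12, n1, n2, f1, f2, j₁, j₂, hα, hβ, ru⟩ := others h loop big he j₀
  obtain ⟨e₃, e₄, γ, δ, n34, n3, n4, f3, f4, j₃, j₄, hγ, hδ, rv⟩ := others h loop big he j₀.symm
  rw [erase_right_comm] at hγ hδ
  have df : ∀ {f f' : E} {x y : V}, Jn a b f u x → Jn a b f' v y → x ∈ (U.erase u).erase v →
      f ≠ f' := by
    rintro f f' x y k1 k2 k3 rfl
    have := (mem_erase.1 k3).1
    rcases k1 with ⟨k1, k4⟩ | ⟨k1, k4⟩ <;> rcases k2 with ⟨k2, k5⟩ | ⟨k2, k5⟩ <;> simp_all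
  have n13 := df j₁ j₃ hα
  have n14 := df j₁ j₄ hα
  have n23 := df j₂ j₃ hβ
  have n24 := df j₂ j₄ hβ
  obtain ⟨R, hF, hR⟩ : ∃ R : Finset E, F = insert e (insert e₁ (insert e₂ (insert e₃
      (insert e₄ R)))) ∧ ∀ f ∈ R, f ∈ F ∧ f ≠ e ∧ f ≠ e₁ ∧ f ≠ e₂ ∧ f ≠ e₃ ∧ f ≠ e₄ := by
    refine ⟨F.filter fun f => f ≠ e ∧ f ≠ e₁ ∧ f ≠ e₂ ∧ f ≠ e₃ ∧ f ≠ e₄, ?_,
      fun f hf => mem_filter.1 hf⟩
    ext f
    simp only [mem_insert, mem_filter]
    constructor
    · tauto
    · rintro (rfl | rfl | rfl | rfl | rfl | k)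
      exacts [he, f1, f2, f3, f4, k.1]
  have r0 : e ∉ R := fun k => (hR _ k).2.1 rfl
  have r1 : e₁ ∉ R := fun k => (hR _ k).2.2.1 rfl
  have r2 : e₂ ∉ R := fun k => (hR _ k).2.2.2.1 rfl
  have r3 : e₃ ∉ R := fun k => (hR _ k).2.2.2.2.1 rfl
  have r4 : e₄ ∉ R := fun k => (hR _ k).2.2.2.2.2 rfl
  have hR' : ∀ f ∈ R, a f ∈ (U.erase u).erase v ∧ b f ∈ (U.erase u).erase v := fun f hf => by
    obtain ⟨k, k0, k1, k2, k3, k4⟩ := hR f hf
    have := ru f k k0 k1 k2
    have := rv f k k0 k3 k4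
    have := h.ends f k
    simp_all
  have cl : (insert e₁ (insert e₃ R)).card + ((U.erase u).erase v).card < n := by
    have k1 : (insert e₁ (insert e₃ R)).card ≤ F.card := card_le_card (by
      intro f hf
      rcases mem_insert.1 hf with rfl | hf
      · exact f1
      rcases mem_insert.1 hf with rfl | hf
      exacts [f3, (hR f hf).1])
    have k2 := card_erase_lt_of_mem hu
    have k3 := card_erase_le (s := U.erase u) (a := v)
    omega
  have m1 := mx e₁ f1
  have m3 := mx e₃ f3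
  clear hR ru rv mx loop f1 f2 f3 f4 he ne big hn
  subst hF
  refine step r4 (by simp [n34, r3]) (by simp [n23, n24, r2]) (by simp [n12, n13, n14, r1])
    (by simp [n1.symm, n2.symm, n3.symm, n4.symm, r0]) j₀ j₁ j₂ j₃ j₄ uv hu hv hα hβ hγ hδ hR' h
    (fun q x₁ x1 x₂ x2 y₁ y1 y₂ y2 nx ny p1 p2 p3 p4 => ?_)
    (fun a b o => ih _ cl a b _ _ rfl o) (g0 e) m1 m3
  by_contra c
  exact cut ⟨q, x₁, x1, x₂, x2, y₁, y1, y₂, y2, nx, ny, p1, p2, p3, p4, by omega⟩

end Pool.Agent.P.MP_92d394_lc.C
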