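import Pool.Agent.P.MP_92d394_lc.C.Mid

/-! The bound 4/3 for points all of whose nonzero entries are at least 13/20. -/

namespace Pool.Agent.P.MP_92d394_lc.C

open Finset H F Fin22

/-- The edges of the support. -/
def Sp {n : ℕ} (y : Fin n → Fin n → ℝ) : Type :=
  {p : Fin n × Fin n // p.1 < p.2 ∧ y p.1 p.2 ≠ 0}

noncomputable instance {n : ℕ} (y : Fin n → Fin n → ℝ) : Fintype (Sp y) := by
  classical
  exact Subtype.fintype _

noncomputable instance {n : ℕ} (y : Fin n → Fin n → ℝ) : DecidableEq (Sp y) :=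
  Classical.decEq _

theorem sum_sp {n : ℕ} {y : Fin n → Fin n → ℝ} (hs : ∀ u v, y u v = y v u) (h0 : ∀ u, y u u = 0)
    {g : Fin n → Fin n → ℝ} (hg : ∀ u v, g u v = g v u) :
    ∑ e : Sp y, g e.1.1 e.1.2 * y e.1.1 e.1.2 = dot g y := by
  classical
  have e1 : ∑ e : Sp y, g e.1.1 e.1.2 * y e.1.1 e.1.2 = ∑ p : Fin n × Fin n,
      if p.1 < p.2 ∧ y p.1 p.2 ≠ 0 then g p.1 p.2 * y p.1 p.2 else 0 := by
    rw [← sum_filter]
    exact (sum_subtype _ (fun p => by simp) fun p : Fin n × Fin n => g p.1 p.2 * y p.1 p.2).symm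
  have e2 : ∀ u v : Fin n, (if u < v ∧ y u v ≠ 0 then g u v * y u v else 0) =
      if u < v then g u v * y u v else 0 := fun u v => by
    by_cases k : u < v <;> by_cases m : y u v = 0 <;> simp [k, m]
  have e3 : ∀ u v : Fin n, g u v * y u v =
      (if u < v then g u v * y u v else 0) + if v < u then g v u * y v u else 0 := fun u v => by
    rcases lt_trichotomy u v with k | k | k
    · simp [k, k.not_gt]
    · simp [k, h0]
    · simp [k, k.not_gt, hs u v, hg u v]
  rw [e1, Fintype.sum_prod_type]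
  simp only [e2]
  rw [dot, sum_congr rfl fun u _ => sum_congr rfl fun v _ => e3 u v]
  simp only [sum_add_distrib]
  rw [sum_comm (f := fun u v : Fin n => if v < u then g v u * y v u else 0)]
  ring

/-- A point with an entry equal to one is integral. -/
theorem integral {V : Type} [Fintype V] [DecidableEq V] {y : V → V → ℝ} (hy : y ∈ SubP V)
    (hh : ∀ u v, y u v = 0 ∨ 13 / 20 ≤ y u v) {p q : V} (h : y p q = 1) (u v : V) :
    y u v = 0 ∨ y u v = 1 := by
  classical
  have loc : ∀ u x, y u x = 1 → ∀ v, y u v = 0 ∨ y u v = 1 := by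
    intro u x hx v
    by_contra c
    push Not at c
    have n : v ≠ x := fun k => c.2 (k ▸ hx)
    have e := hy.2.2.2.1 u
    rw [← add_sum_erase _ _ (mem_univ x), ← add_sum_erase _ _ (mem_erase.2 ⟨n, mem_univ v⟩),
      hx] at e
    have k1 := (hh u v).resolve_left c.1
    have k2 := lt_of_le_of_ne (hy.2.2.1 u v).2 c.2
    obtain ⟨z, z1, z2⟩ := exists_ne_zero_of_sum_ne_zero
      (show ∑ z ∈ (univ.erase x).erase v, y u z ≠ 0 by linarith)
    have k3 := (hh u z).resolve_left z2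
    have k4 := single_le_sum (fun z _ => (hy.2.2.1 u z).1) z1
    linarith
  by_contra c
  have k := cut_two hy (S := univ.filter fun u => ∃ x, y u x = 1) ⟨p, by simpa using ⟨q, h⟩⟩
    ⟨u, by simpa using fun x hx => c (loc u x hx v)⟩
  rw [dot_cutm hy.1, sum_eq_zero fun s hs => sum_eq_zero fun t ht => ?_] at k
  · norm_num at k
  obtain ⟨x, hx⟩ := (mem_filter.1 hs).2
  refine (loc s x hx t).resolve_right fun m => ?_
  exact mem_compl.1 ht (mem_filter.2 ⟨mem_univ _, s, (hy.1 t s).trans m⟩)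

theorem four_thirds (n : ℕ) (hn : 3 ≤ n) (y : Fin n → Fin n → ℝ) (hy : y ∈ SubP (Fin n))
    (hh : ∀ u v, y u v = 0 ∨ 13 / 20 ≤ y u v) (c : Fin n → Fin n → ℝ) (hc : IsMetric c) :
    ∃ x ∈ SubP (Fin n), (∀ u v, ∃ k : ℤ, x u v = k) ∧ dot c x ≤ 4 / 3 * dot c y := by
  by_cases one : ∃ p q, y p q = 1
  · obtain ⟨p, q, h⟩ := one
    refine ⟨y, hy, fun u v => ?_, ?_⟩
    · rcases integral hy hh h u v with k | k
      exacts [⟨0, by simp [k]⟩, ⟨1, by simp [k]⟩]
    · have := dot_nonneg hc.2.2.1 fun u v => (hy.2.2.1 u v).1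
      linarith
  push Not at one
  have cd : ∀ S : Finset (Fin n),
      ∑ e ∈ dl (fun e : Sp y => e.1.1) (fun e => e.1.2) univ S, y e.1.1 e.1.2 =
        dot (cutm S) y := fun S => by
    rw [← sum_sp hy.1 hy.2.1 (cutm_symm S), sum_dl]
    exact sum_congr rfl fun e _ => mul_comm _ _
  have lo : ∀ e : Sp y, 13 / 20 ≤ y e.1.1 e.1.2 := fun e => (hh _ _).resolve_left e.2.2
  obtain ⟨z, ⟨z1, z2⟩, z3⟩ := mid (a := fun e : Sp y => e.1.1) (b := fun e => e.1.2)
    (y := fun e => y e.1.1 e.1.2) (w := fun e => c e.1.1 e.1.2) ⟨⟨0, by omega⟩⟩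
    (fun e => hc.2.2.1 _ _) lo
    (fun v => by
      have e := cd {v}
      rw [dot_single hy.1 hy.2.1, hy.2.2.2.1 v] at e
      have k := card_nsmul_le_sum (dl (fun e : Sp y => e.1.1) (fun e => e.1.2) univ {v})
        (fun e => y e.1.1 e.1.2) _ fun e _ => lo e
      rw [e, nsmul_eq_mul] at k
      have : ((dl (fun e : Sp y => e.1.1) (fun e => e.1.2) univ {v}).card : ℝ) < 4 := by linarith
      exact Nat.lt_succ_iff.1 (by exact_mod_cast this))
    (fun S p q => by
      have e := cut_two hy p q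
      rw [← cd] at e
      have ne : (dl (fun e : Sp y => e.1.1) (fun e => e.1.2) univ S).Nonempty := by
        rw [nonempty_iff_ne_empty]
        intro k
        rw [k, sum_empty] at e
        norm_num at e
      have k := sum_lt_sum_of_nonempty ne (g := fun _ => (1 : ℝ))
        fun e _ => lt_of_le_of_ne (hy.2.2.1 e.1.1 e.1.2).2 (one _ _)
      rw [sum_const, nsmul_eq_mul, mul_one] at k
      have : (2 : ℝ) < (dl (fun e : Sp y => e.1.1) (fun e => e.1.2) univ S).card := by linarith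
      exact_mod_cast this)
    fun S p q => by rw [cd]; exact cut_two hy p q
  obtain ⟨x, x1, x2⟩ := (eul _ _ z z1 z2).tour hc (by rwa [Fintype.card_fin])
  refine ⟨x, x1.1, x1.2, x2.trans ?_⟩
  rw [dot_z _ _ _ hc.1 hc.2.1]
  rw [sum_sp hy.1 hy.2.1 hc.1] at z3
  simp only [mul_comm (c _ _)] at z3
  linarith

end Pool.Agent.P.MP_92d394_lc.C
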