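import Pool.Agent.P.MP_92d394_lc.C.B3
import Pool.Agent.P.MP_92d394_lc.F.Ten

/-! The threshold accounting for cubic supports. -/

namespace Pool.Agent.P.MP_92d394_lc.C

open Finset H F

variable {V E : Type} [Fintype V] [DecidableEq V] [Fintype E] [DecidableEq E] {a b : E → V}

omit [Fintype V] [DecidableEq E] in
theorem cn_dl (k : E → Bool) (S : Finset V) :
    cn a b univ k (fun x => decide (x ∈ S)) = (dl a b (univ.filter fun e => k e = true) S).card := by
  rw [dl, filter_filter, card_filter]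
  refine sum_congr rfl fun e _ => ?_
  simp

/-- The weighted form of the theorem of Boyd and Legault. -/
theorem law (deg : ∀ v, (dl a b univ {v}).card ≤ 3)
    (con : ∀ S : Finset V, S.Nonempty → Sᶜ.Nonempty → 3 ≤ (dl a b univ S).card) (g : E → ℝ) :
    ∃ H, Two a b H ∧ ∑ e, g e ≤ 5 * ∑ e, if e ∈ H then 0 else g e := by
  obtain ⟨k, k1, k2⟩ := bl _ a b univ univ rfl ⟨fun _ _ => ⟨mem_univ _, mem_univ _⟩,
    fun v _ => by
      have := cn_dl (a := a) (b := b) (fun _ => true) {v}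
      simp only [mem_singleton, filter_true] at this
      exact this ▸ deg v,
    fun q x _ y _ n => by
      have := cn_dl (a := a) (b := b) (fun _ => true) (univ.filter fun z => q z = true)
      simp only [mem_filter, mem_univ, true_and, Bool.decide_eq_true, filter_true] at this
      rw [this]
      rcases tf (q x) with h | h
      · exact con _ ⟨x, by simp [h]⟩ ⟨y, by simpa [h] using n⟩
      · exact con _ ⟨y, by simpa [h] using n⟩ ⟨x, by simp [h]⟩⟩ g
  refine ⟨univ.filter fun e => k e = true, fun S ⟨x, hx⟩ ⟨y, hy⟩ => ?_, by simpa [gn] using k2⟩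
  rw [← cn_dl]
  exact k1 _ x (mem_univ _) y (mem_univ _) (by simpa [hx] using hy)

omit [DecidableEq E] in
/-- Double counting. -/
theorem dbl {c : V → Finset V} (h1 : ∀ v, v ∈ c v) (h2 : ∀ u v, u ∈ c v → c u = c v)
    (P : Finset (Finset V)) (hP : P ⊆ univ.image c) (A : Finset E)
    (hA : ∀ e, c (a e) ≠ c (b e) → e ∈ A) (s : E → ℝ) (hs : ∀ e, 0 ≤ s e) :
    ∑ X ∈ P, ∑ e ∈ dl a b univ X, s e ≤ 2 * ∑ e ∈ A, s e := by
  classical
  refine (sum_le_sum_of_subset_of_nonneg hP fun X _ _ => sum_nonneg fun e _ => hs e).trans ?_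
  have e1 : ∑ e ∈ A, s e = ∑ e, if e ∈ A then s e else 0 := by simp
  simp only [dl, sum_filter]
  rw [sum_comm, e1, mul_sum]
  refine sum_le_sum fun e _ => ?_
  have k := MP_92d394_lc.H.Thr.shake a b {e} c h1 h2
  simp only [dl, card_filter, sum_singleton] at k
  have k' : ∑ X ∈ univ.image c, (if ¬ (a e ∈ X ↔ b e ∈ X) then (1 : ℝ) else 0) =
      2 * if c (a e) ≠ c (b e) then 1 else 0 := by exact_mod_cast k
  have e2 : ∑ X ∈ univ.image c, (if ¬ (a e ∈ X ↔ b e ∈ X) then s e else 0) =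
      s e * ∑ X ∈ univ.image c, (if ¬ (a e ∈ X ↔ b e ∈ X) then (1 : ℝ) else 0) := by
    rw [mul_sum]
    exact sum_congr rfl fun X _ => by split_ifs <;> simp
  rw [e2, k']
  have := hs e
  have := hA e
  split_ifs <;> simp_all
  linarith

omit [Fintype V] in
/-- One class. -/
theorem cls {y : E → ℝ} (hy : ∀ e, 13 / 20 ≤ y e) {H : Finset E} {X : Finset V}
    (h2 : 2 ≤ (dl a b H X).card) (h3 : 3 ≤ (dl a b univ X).card)
    (hc : 2 ≤ ∑ e ∈ dl a b univ X, y e) :
    (((if (dl a b H X).card = 3 then 1 else 2 : ℕ) : ℝ) +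
      if 4 ≤ (dl a b univ X).card then
        ∑ e ∈ dl a b univ X, ((if e ∈ H then 0 else 1) - 1 / 5 : ℝ) else 0) * 2 ≤
      ∑ e ∈ dl a b univ X, (4 * y e - if e ∈ H then 2 else 0) := by
  have e1 : ∑ e ∈ dl a b univ X, (if e ∈ H then (1 : ℝ) else 0) = (dl a b H X).card := by
    rw [sum_boole]
    congr 2
    ext e
    simp [MP_92d394_lc.H.Thr.mem_dl, and_comm]
  have e2 : ∑ e ∈ dl a b univ X, (4 * y e - if e ∈ H then 2 else 0) =
      4 * ∑ e ∈ dl a b univ X, y e - 2 * (dl a b H X).card := by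
    rw [← e1, mul_sum, mul_sum, ← sum_sub_distrib]
    exact sum_congr rfl fun e _ => by split_ifs <;> simp
  have e3 : ∑ e ∈ dl a b univ X, ((if e ∈ H then 0 else 1) - 1 / 5 : ℝ) =
      4 / 5 * (dl a b univ X).card - (dl a b H X).card := by
    rw [← e1, card_eq_sum_ones, Nat.cast_sum, mul_sum, ← sum_sub_distrib]
    exact sum_congr rfl fun e _ => by split_ifs <;> norm_num
  have e4 := card_nsmul_le_sum (dl a b univ X) y _ fun e _ => hy e
  have e5 := MP_92d394_lc.H.Thr.dl_le a b H X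
  rw [nsmul_eq_mul] at e4
  rw [e2, e3]
  by_cases c : 4 ≤ (dl a b univ X).card
  · have : (4 : ℝ) ≤ (dl a b univ X).card := by exact_mod_cast c
    rw [if_pos c]
    split_ifs <;> push_cast <;> linarith
  · rw [if_neg c]
    obtain k | k : (dl a b H X).card = 2 ∨ (dl a b H X).card = 3 := by omega
    all_goals
      rw [k]
      norm_num
      linarith

theorem mid {y w : E → ℝ} (hV : Nonempty V) (hw : ∀ e, 0 ≤ w e) (hy : ∀ e, 13 / 20 ≤ y e)
    (deg : ∀ v, (dl a b univ {v}).card ≤ 3)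
    (con : ∀ S : Finset V, S.Nonempty → Sᶜ.Nonempty → 3 ≤ (dl a b univ S).card)
    (cut : ∀ S : Finset V, S.Nonempty → Sᶜ.Nonempty → 2 ≤ ∑ e ∈ dl a b univ S, y e) :
    ∃ z : E → ℕ, Ev a b z ∧ 3 * ∑ e, w e * z e ≤ 4 * ∑ e, w e * y e := by
  classical
  obtain ⟨I, μ, hI, hμ⟩ := cake E w hw
  obtain ⟨r⟩ := hV
  set ρ : ℝ → V → Finset V := fun t => Kru.cl a b (univ.filter fun e => w e ≤ t) with hρ
  have hρ1 : ∀ t v, v ∈ ρ t v := fun t v => Kru.self_mem a b _ v
  have hρ2 : ∀ t u v, u ∈ ρ t v → ρ t u = ρ t v := fun t u v k => Kru.cl_eq k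
  have hρ4 : ∀ t e, w e ≤ t → ρ t (a e) = ρ t (b e) := fun t e he =>
    Kru.cl_edge (mem_filter.mpr ⟨mem_univ e, he⟩)
  let P : ℝ → Finset (Finset V) := fun t => (univ.image (ρ t)).erase (ρ t r)
  let g : E → ℝ := fun e => ∑ t ∈ I, μ t * ∑ X ∈ P t,
    if 4 ≤ (dl a b univ X).card ∧ e ∈ dl a b univ X then 1 else 0
  obtain ⟨H, hH, hg⟩ := law deg con g
  choose D hD1 hD2 hD3 using fun t => lev (ms ord) V E a b H (ρ t) r hH (hρ1 t) (hρ2 t)
  obtain ⟨z, z1, z2⟩ := tour join F.con V E a b w H D I μ ⟨r⟩ hH (fun t J hJ S hS hS' hl =>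
    hD3 t J hJ S hS hS' fun v hv u hu =>
      (Kru.mem_cl.1 hu S (Kru.dl_empty.2 fun e he => hl e (mem_filter.1 he).2)).2 hv) hI hμ
  refine ⟨z, z1, z2.trans ?_⟩
  let s : E → ℝ := fun e => 4 * y e - if e ∈ H then 2 else 0
  let d : E → ℝ := fun e => (if e ∈ H then 0 else 1) - 1 / 5
  let N : ℝ → ℝ := fun t => ∑ X ∈ P t,
    if 4 ≤ (dl a b univ X).card then ∑ e ∈ dl a b univ X, d e else 0
  have lv : ∀ t, 2 * ((D t).card : ℝ) + N t ≤ ∑ e, s e * if t < w e then 1 else 0 := by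
    intro t
    have k1 := dbl (a := a) (b := b) (hρ1 t) (hρ2 t) (P t) (erase_subset _ _)
      (univ.filter fun e => t < w e)
      (fun e he => mem_filter.2 ⟨mem_univ _, lt_of_not_ge fun k => he (hρ4 t e k)⟩) s fun e => by
        have := hy e
        simp only [s]
        split_ifs <;> linarith
    have k2 : 2 * ((D t).card : ℝ) ≤
        ∑ X ∈ P t, ((if (dl a b H X).card = 3 then 1 else 2 : ℕ) : ℝ) := by
      exact_mod_cast hD2 t
    have k3 : (∑ X ∈ P t, ((if (dl a b H X).card = 3 then 1 else 2 : ℕ) : ℝ) + N t) * 2 ≤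
        ∑ X ∈ P t, ∑ e ∈ dl a b univ X, s e := by
      rw [← sum_add_distrib, sum_mul]
      refine sum_le_sum fun X hX => ?_
      obtain ⟨hne, hX⟩ := mem_erase.1 hX
      obtain ⟨v, -, rfl⟩ := mem_image.1 hX
      have p : (ρ t v).Nonempty := ⟨v, hρ1 t v⟩
      have q : (ρ t v)ᶜ.Nonempty := ⟨r, mem_compl.2 fun k => hne (hρ2 t r v k).symm⟩
      exact cls hy (hH _ p q) (con _ p q) (cut _ p q)
    have k4 : ∑ e ∈ univ.filter (fun e => t < w e), s e = ∑ e, s e * if t < w e then 1 else 0 := by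
      rw [sum_filter]
      exact sum_congr rfl fun e _ => by split_ifs <;> simp
    linarith
  have t1 : ∑ t ∈ I, μ t * N t = ∑ e, g e * d e := by
    simp only [g, N, sum_mul]
    rw [sum_comm]
    refine sum_congr rfl fun t _ => ?_
    simp only [mul_assoc, sum_mul]
    rw [← mul_sum, sum_comm]
    congr 1
    refine sum_congr rfl fun X _ => ?_
    by_cases c : 4 ≤ (dl a b univ X).card <;> simp [c]
  have t2 : 0 ≤ ∑ e, g e * d e := by
    have : ∑ e, g e * d e = (∑ e, if e ∈ H then 0 else g e) - (∑ e, g e) / 5 := by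
      rw [sum_div, ← sum_sub_distrib]
      refine sum_congr rfl fun e _ => ?_
      simp only [d]
      split_ifs <;> ring
    linarith
  have t3 : ∑ t ∈ I, μ t * ∑ e, (s e * if t < w e then 1 else 0) = ∑ e, s e * w e := by
    simp only [mul_sum]
    rw [sum_comm]
    refine sum_congr rfl fun e _ => ?_
    conv_rhs => rw [hμ e, mul_sum]
    exact sum_congr rfl fun t _ => by ring
  have t4 : ∑ e, s e * w e = 4 * ∑ e, w e * y e - 2 * ∑ e ∈ H, w e := by
    have : ∑ e ∈ H, w e = ∑ e, if e ∈ H then w e else 0 := by simp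
    rw [this, mul_sum, mul_sum, ← sum_sub_distrib]
    refine sum_congr rfl fun e _ => ?_
    simp only [s]
    split_ifs <;> ring
  have t5 : ∑ t ∈ I, μ t * (2 * ((D t).card : ℝ) + N t) ≤
      ∑ t ∈ I, μ t * ∑ e, (s e * if t < w e then 1 else 0) :=
    sum_le_sum fun t ht => mul_le_mul_of_nonneg_left (lv t) (hI t ht).2
  have t6 : ∑ t ∈ I, μ t * (2 * ((D t).card : ℝ) + N t) =
      2 * ∑ t ∈ I, μ t * (D t).card + ∑ t ∈ I, μ t * N t := by
    rw [mul_sum, ← sum_add_distrib]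
    exact sum_congr rfl fun t _ => by ring
  linarith

end Pool.Agent.P.MP_92d394_lc.C
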